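import Pool.Agent.H872R3.KH.NotPA

/-! A Kripke model of Heyting arithmetic none of whose nodes is a model of Peano arithmetic. -/

set_option autoImplicit false

namespace Pool.Agent.Results.MP_bc5999_lc.NoNodePA

open Pool.Agent.H872R3.KH

/-- There is a Kripke model of Heyting arithmetic such that for every node `k` the classical
structure at `k` is not a model of Peano arithmetic. -/
theorem result : ∃ W : KModel, W.ForcesHA ∧ ∀ k : W.K, ¬ ModelsPA (W.str k) :=
  ⟨model, forcesHA, fun k => notPA k⟩

end Pool.Agent.Results.MP_bc5999_lc.NoNodePA
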